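import Pool.Agent.Helper79.T7E.StE

/-!
# Levels `7 p^n`: DIM, NEX and K (from `Helper79/S7/M_Dim.lean`)
-/

set_option autoImplicit false

namespace Pool.Agent.Helper79.T7E

open Pool.Agent.Helper14.CV
open Pool.Agent.Helper28.TH (OkH)
open Pool.Agent.Helper93.TLE (DDE)
open Pool.Agent.Helper28.T7 Pool.Agent.Helper83.T7C
open Pool.Agent.Helper28.WK (Tw evw)

private theorem Tw_congr (p : ℕ) (ls : List ℕ) (hls : OkH 7 p ls) {G H : ℤ → ℤ → ℂ} (h : EqC G H) :
    EqC (Tw 1 ls G) (Tw 1 ls H) := by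
  induction ls with
  | nil => exact h
  | cons l ls ih =>
    exact (ih fun x hx => hls x (List.mem_cons_of_mem _ hx)).Tl
      (hls l List.mem_cons_self).1.pos 1

private theorem evLH_apply (p : ℕ) (G : ℤ → ℤ → ℂ) (ls : List ℕ) (hls : OkH 7 p ls) :
    evLH p G ls = evw 1 ls G := if_pos hls

private theorem evLH_apply' (p : ℕ) (G : ℤ → ℤ → ℂ) (ls : List ℕ) (hls : ¬ OkH 7 p ls) :
    evLH p G ls = 0 := if_neg hls

private theorem evLH_congr (p : ℕ) {G H : ℤ → ℤ → ℂ} (h : EqC G H) : evLH p G = evLH p H := by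
  funext ls
  by_cases hls : OkH 7 p ls
  · rw [evLH_apply _ _ _ hls, evLH_apply _ _ _ hls]
    exact (Tw_congr p ls hls h).diff (Or.inl one_ne_zero) (Or.inr one_ne_zero)
  · rw [evLH_apply' _ _ _ hls, evLH_apply' _ _ _ hls]

/-- The image of `ev` on the symbols of level `p^n`. -/
private noncomputable def V (p n : ℕ) : Submodule ℂ (List ℕ → ℂ) := (XSH p n).map (evLH p)

/-- The image of `ev` on the new symbols of level `p^n`. -/
private noncomputable def W (p n : ℕ) : Submodule ℂ (List ℕ → ℂ) := (NSH p n).map (evLH p)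

private theorem V_le_of_B3a (h : SHB3a) {p : ℕ} (hp : p.Prime) (hp2 : p ≠ 7) {n : ℕ} (hn : 3 ≤ n) :
    V p n ≤ V p (n - 1) ⊔ W p n := by
  rintro x ⟨G, hG, rfl⟩
  obtain ⟨G0, G1, h0, h1, h2⟩ := h p hp hp2 n G hn hG
  refine Submodule.mem_sup.mpr ⟨(evLH p) G0, ⟨G0, h0, rfl⟩, (evLH p) G1, ⟨G1, h1, rfl⟩, ?_⟩
  funext ls
  show evLH p G0 ls + evLH p G1 ls = evLH p G ls
  by_cases hls : OkH 7 p ls
  · rw [evLH_apply _ _ _ hls, evLH_apply _ _ _ hls, evLH_apply _ _ _ hls]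
    exact (h2 ls hls).symm
  · rw [evLH_apply' _ _ _ hls, evLH_apply' _ _ _ hls, evLH_apply' _ _ _ hls, add_zero]

/-- A space of symbols which is determined up to constants by `d` values. -/
private theorem X_bound (p : ℕ) {X : Submodule ℂ (ℤ → ℤ → ℂ)} {d : ℕ} (Θ : X →ₗ[ℂ] (Fin d → ℂ))
    (hΘ : ∀ G : X, Θ G = 0 → EqC (G : ℤ → ℤ → ℂ) 0) :
    Module.Finite ℂ (X.map (evLH p)) ∧ Module.finrank ℂ (X.map (evLH p)) ≤ d ∧
      ∀ G ∈ X, (evLH p) G = 0 → ¬ EqC G 0 →
        Module.finrank ℂ (X.map (evLH p)) + 1 ≤ d := by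
  set f : X →ₗ[ℂ] (List ℕ → ℂ) := (evLH p) ∘ₗ X.subtype with hf
  have hker : LinearMap.ker Θ ≤ LinearMap.ker f := by
    intro G hG
    have h1 : EqC (G : ℤ → ℤ → ℂ) 0 := hΘ G (LinearMap.mem_ker.mp hG)
    refine LinearMap.mem_ker.mpr ?_
    show evLH p (G : ℤ → ℤ → ℂ) = 0
    rw [evLH_congr p h1]
    exact map_zero (evLH p)
  set g : LinearMap.range Θ →ₗ[ℂ] (List ℕ → ℂ) :=
    (Submodule.liftQ (LinearMap.ker Θ) f hker) ∘ₗ (Θ.quotKerEquivRange.symm).toLinearMap with hg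
  have hgΘ : ∀ G : X, g ⟨Θ G, LinearMap.mem_range_self Θ G⟩ = f G := by
    intro G
    have h1 : Θ.quotKerEquivRange.symm ⟨Θ G, LinearMap.mem_range_self Θ G⟩ =
        (LinearMap.ker Θ).mkQ G := by
      rw [LinearEquiv.symm_apply_eq]
      rfl
    show (Submodule.liftQ (LinearMap.ker Θ) f hker)
      (Θ.quotKerEquivRange.symm ⟨Θ G, LinearMap.mem_range_self Θ G⟩) = f G
    rw [h1]
    rfl
  have hrange : X.map (evLH p) = LinearMap.range g := by
    ext x
    constructor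
    · rintro ⟨G, hG, rfl⟩
      exact ⟨⟨Θ ⟨G, hG⟩, LinearMap.mem_range_self Θ _⟩, hgΘ ⟨G, hG⟩⟩
    · rintro ⟨⟨y, G, rfl⟩, rfl⟩
      exact ⟨(G : ℤ → ℤ → ℂ), G.2, (hgΘ G).symm⟩
  have hfin : Module.Finite ℂ (X.map (evLH p)) := by
    rw [hrange]
    infer_instance
  have hrk := LinearMap.finrank_range_add_finrank_ker g
  have hle : Module.finrank ℂ (LinearMap.range Θ) ≤ d := by
    have := Submodule.finrank_le (LinearMap.range Θ)
    simpa using this
  refine ⟨hfin, ?_, ?_⟩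
  · rw [hrange]
    omega
  · intro G hG he hne
    have h1 : Θ ⟨G, hG⟩ ≠ 0 := fun h0 => hne (hΘ ⟨G, hG⟩ h0)
    have h2 : (⟨Θ ⟨G, hG⟩, LinearMap.mem_range_self Θ _⟩ : LinearMap.range Θ) ∈
        LinearMap.ker g := by
      rw [LinearMap.mem_ker, hgΘ ⟨G, hG⟩]
      exact he
    have h5 : Nontrivial (LinearMap.ker g) := by
      refine ⟨⟨⟨_, h2⟩, 0, fun h0 => h1 ?_⟩⟩
      have h4 := congrArg Subtype.val h0
      exact congrArg Subtype.val h4
    have h3 : 0 < Module.finrank ℂ (LinearMap.ker g) :=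
      Module.finrank_pos (R := ℂ) (M := LinearMap.ker g)
    rw [hrange]
    omega

private theorem V_two {p D : ℕ} (hb : B3bH p D) :
    Module.Finite ℂ (V p 2) ∧ Module.finrank ℂ (V p 2) ≤ D := by
  classical
  obtain ⟨e, he⟩ := hb
  set v : Fin D → (List ℕ → ℂ) := fun i ls => if OkH 7 p ls then e i ls else 0 with hv
  have hle : V p 2 ≤ Submodule.span ℂ (Set.range v) := by
    rintro y ⟨G, hG, rfl⟩
    obtain ⟨x, hx⟩ := he G hG
    have h1 : evLH p G = ∑ i, x i • v i := by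
      funext ls
      rw [Finset.sum_apply]
      by_cases hls : OkH 7 p ls
      · rw [evLH_apply _ _ _ hls, hx ls hls]
        refine Finset.sum_congr rfl fun i _ => ?_
        simp only [hv, Pi.smul_apply, smul_eq_mul, if_pos hls]
      · rw [evLH_apply' _ _ _ hls]
        refine (Finset.sum_eq_zero fun i _ => ?_).symm
        simp only [hv, Pi.smul_apply, smul_eq_mul, if_neg hls, mul_zero]
    rw [h1]
    exact Submodule.sum_mem _ fun i _ =>
      Submodule.smul_mem _ _ (Submodule.subset_span ⟨i, rfl⟩)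
  have hsp : Module.Finite ℂ (Submodule.span ℂ (Set.range v)) :=
    FiniteDimensional.span_of_finite ℂ (Set.finite_range v)
  have hfin : Module.Finite ℂ (V p 2) := Submodule.finiteDimensional_of_le hle
  refine ⟨hfin, (Submodule.finrank_mono hle).trans ?_⟩
  have h9 := finrank_range_le_card (R := ℂ) v
  rw [Fintype.card_fin] at h9
  exact h9

private theorem DDE_two (D : ℕ) (dd : ℕ → ℕ) : DDE D dd 2 = D := by
  unfold DDE
  simp

private theorem DDE_succ (D : ℕ) (dd : ℕ → ℕ) {m : ℕ} (hm : 2 ≤ m) :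
    DDE D dd (m + 1) = DDE D dd m + dd (m + 1) := by
  unfold DDE
  rw [Finset.sum_Ico_succ_top (by omega), add_assoc]

private theorem V_bound {p D : ℕ} {dd : ℕ → ℕ} (hp : p.Prime) (hp2 : p ≠ 7) (h3a : SHB3a)
    (hb : B3bH p D) (hUB : UBH p dd) (n : ℕ) (hn : 2 ≤ n) :
    Module.Finite ℂ (V p n) ∧ Module.finrank ℂ (V p n) ≤ DDE D dd n := by
  induction n, hn using Nat.le_induction with
  | base =>
    rw [DDE_two]
    exact V_two hb
  | succ m hm ih =>
    obtain ⟨ih1, ih2⟩ := ih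
    have hm3 : 3 ≤ m + 1 := by omega
    obtain ⟨Θ, hΘ⟩ := hUB (m + 1) hm3
    obtain ⟨w1, w2, _⟩ := X_bound p Θ hΘ
    have w1' : Module.Finite ℂ (W p (m + 1)) := w1
    have w2' : Module.finrank ℂ (W p (m + 1)) ≤ dd (m + 1) := w2
    have hle := V_le_of_B3a h3a hp hp2 hm3
    rw [Nat.add_sub_cancel] at hle
    have hfin : Module.Finite ℂ (V p m ⊔ W p (m + 1) : Submodule ℂ (List ℕ → ℂ)) :=
      Submodule.finiteDimensional_sup _ _
    refine ⟨Submodule.finiteDimensional_of_le hle, ?_⟩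
    have h1 := Submodule.finrank_mono hle
    have h2 := Submodule.finrank_add_le_finrank_add_finrank (V p m) (W p (m + 1))
    have h3 := DDE_succ D dd hm
    omega

/-- DIM. -/
theorem hDim (p D : ℕ) (dd : ℕ → ℕ) (hp : p.Prime) (hp2 : p ≠ 7) (h3a : SHB3a)
    (hb : B3bH p D) (hUB : UBH p dd) : DimH p D dd := by
  intro m G hm hG hli H hH
  obtain ⟨v1, v2⟩ := V_bound hp hp2 h3a hb hUB m (by omega)
  have hle : Submodule.span ℂ (Set.range fun k => evLH p (G k)) ≤ V p m := by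
    rw [Submodule.span_le]
    rintro x ⟨k, rfl⟩
    exact ⟨G k, hG k, rfl⟩
  have hrk : Module.finrank ℂ (V p m) ≤
      Module.finrank ℂ (Submodule.span ℂ (Set.range fun k => evLH p (G k))) := by
    rw [finrank_span_eq_card hli, Fintype.card_fin]
    exact v2
  have heq := Submodule.eq_of_le_of_finrank_le hle hrk
  rw [heq]
  exact ⟨H, hH, rfl⟩

/-- NEX. -/
theorem hNex (p D : ℕ) (dd : ℕ → ℕ) (hp : p.Prime) (hp2 : p ≠ 7) (h3a : SHB3a)
    (hb : B3bH p D) (hUB : UBH p dd) (hLB : LBH p D dd) : NexH p := by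
  intro m G0 G1 hm hG0 hG1 hev
  by_contra hne
  have he : evLH p G1 = -evLH p G0 := by
    funext ls
    by_cases hls : OkH 7 p ls
    · rw [Pi.neg_apply, evLH_apply _ _ _ hls, evLH_apply _ _ _ hls]
      exact eq_neg_of_add_eq_zero_right (hev ls hls)
    · rw [Pi.neg_apply, evLH_apply' _ _ _ hls, evLH_apply' _ _ _ hls, neg_zero]
  obtain ⟨Θ, hΘ⟩ := hUB m hm
  obtain ⟨w1, w2, w3⟩ := X_bound p Θ hΘ
  have w1' : Module.Finite ℂ (W p m) := w1
  have w2' : Module.finrank ℂ (W p m) ≤ dd m := w2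
  have w3' : evLH p G1 = 0 → Module.finrank ℂ (W p m) + 1 ≤ dd m := fun h => w3 G1 hG1 h hne
  obtain ⟨v1, v2⟩ := V_bound hp hp2 h3a hb hUB (m - 1) (by omega)
  have hle := V_le_of_B3a h3a hp hp2 (n := m) hm
  have hfin : Module.Finite ℂ (V p (m - 1) ⊔ W p m : Submodule ℂ (List ℕ → ℂ)) :=
    Submodule.finiteDimensional_sup _ _
  have hfinV : Module.Finite ℂ (V p m) := Submodule.finiteDimensional_of_le hle
  have h1 := Submodule.finrank_mono hle
  have h2 := Submodule.finrank_sup_add_finrank_inf_eq (V p (m - 1)) (W p m)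
  have h3 : DDE D dd m = DDE D dd (m - 1) + dd m := by
    obtain ⟨k, rfl⟩ : ∃ k, m = k + 1 := ⟨m - 1, by omega⟩
    rw [Nat.add_sub_cancel]
    exact DDE_succ D dd (by omega)
  obtain ⟨H, hH, hli⟩ := hLB m (by omega)
  have hli' : LinearIndependent ℂ (fun k => (⟨evLH p (H k), ⟨H k, hH k, rfl⟩⟩ : V p m)) := by
    refine LinearIndependent.of_comp (V p m).subtype ?_
    exact hli
  have h4 := hli'.fintype_card_le_finrank
  rw [Fintype.card_fin] at h4
  by_cases h0 : evLH p G1 = 0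
  · have hw := w3' h0
    omega
  · have hmem : evLH p G1 ∈ V p (m - 1) ⊓ W p m := by
      refine ⟨?_, ⟨G1, hG1, rfl⟩⟩
      rw [he]
      exact (V p (m - 1)).neg_mem ⟨G0, hG0, rfl⟩
    have hnt : Nontrivial (V p (m - 1) ⊓ W p m : Submodule ℂ (List ℕ → ℂ)) :=
      ⟨⟨⟨_, hmem⟩, 0, fun h => h0 (congrArg Subtype.val h)⟩⟩
    have hf : Module.Finite ℂ (V p (m - 1) ⊓ W p m : Submodule ℂ (List ℕ → ℂ)) :=
      Submodule.finiteDimensional_of_le inf_le_left
    have h5 : 0 < Module.finrank ℂ (V p (m - 1) ⊓ W p m : Submodule ℂ (List ℕ → ℂ)) :=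
      Module.finrank_pos
    omega

/-- K: the kernel of the values is the image of `u - 1`. -/
theorem hKk (p : ℕ) (hKs : KsH p) (hBse : CoreV p 2) : KkH p := by
  intro m G hm
  have mono : ∀ {s s' : ℕ}, s ≤ s' → ∀ {G : ℤ → ℤ → ℂ}, SymH p 0 s G → SymH p 0 s' G :=
    fun hs _ h => ⟨h.1, fun a b c d hd hb hc => h.2 a b c d hd hb ((pow_dvd_pow _ hs).trans hc)⟩
  induction m, hm using Nat.le_induction generalizing G with
  | base =>
    intro hS hW hst hev
    obtain ⟨G', ψ, hG', hψ, hW', hst', hev', hG⟩ := hKs 3 G le_rfl hS hW hst hev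
    have h0 : EqC G' 0 := hBse G' hG' hW' hst' hev'
    refine ⟨ψ, hψ, ?_⟩
    have h2 := h0.add (EqC.refl (act p 0 0 1 ψ - ψ))
    rw [zero_add] at h2
    exact (hG.trans h2).symm
  | succ k hk ih =>
    intro hS hW hst hev
    obtain ⟨G', ψ, hG', hψ, hW', hst', hev', hG⟩ := hKs (k + 1) G (by omega) hS hW hst hev
    obtain ⟨ψ', hψ', he⟩ := ih G' hG' hW' hst' hev'
    refine ⟨ψ' + ψ, SymH.add (mono (by omega) hψ') hψ, ?_⟩
    have h3 := he.add (EqC.refl (act p 0 0 1 ψ - ψ))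
    have h4 : act p 0 0 1 (ψ' + ψ) - (ψ' + ψ) =
        act p 0 0 1 ψ' - ψ' + (act p 0 0 1 ψ - ψ) := by
      rw [act_add]
      abel
    rw [h4]
    exact h3.trans hG.symm

end Pool.Agent.Helper79.T7E
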