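import Pool.Agent.Helper28.T7N.Gen

/-!
# Levels `7 p^n`, `f | W_7 = f`: all even weights `k ≥ 4`
-/

set_option autoImplicit false

namespace Pool.Agent.Helper79.T7E

open Pool.Agent.Helper14.CV (G0)
open Pool.Agent.Helper14.WK Pool.Agent.Helper28.WK Pool.Agent.Helper28.TL
open Pool.Agent.Helper28.TH (ALPlus)

/-- Levels `7 p^n`, from Theorem A for the symbols `SymH`. -/
theorem valSeven (p : ℕ) (hp : p.Prime) (hp7 : p ≠ 7) (hTA : Pool.Agent.Helper28.T7.TAH p 24) (n : ℕ) (k : ℤ)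
    (hk : 0 < k) (heven : Even k) (h4 : 4 ≤ k) (hne : NeZero (7 * p ^ n)) (f : CuspForm (G0 (7 * p ^ n)) k)
    (hf : IsNewN f) (hal : ALPlus 7 (p ^ n) f) (hε : RootOneK hk f) : LanK hk f (1 / 2) ≠ 0 := by
  obtain ⟨A, rfl⟩ : ∃ A : ℕ, k = 2 * A + 2 := by
    obtain ⟨r, hr⟩ := heven
    exact ⟨(r - 1).toNat, by omega⟩
  exact Pool.Agent.Helper28.T7N.genAll7 p hp hp7 24 (by norm_num) hTA A n (by omega) inferInstance hk f hf hal hε

end Pool.Agent.Helper79.T7E
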