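import Pool.Agent.Helper79.THE.Mu5
import Pool.Agent.Helper4.T7.StD

/-!
# Levels `7·5^n`: lifting solutions of the relation from `ZMod q` to the integers, planes of type `(r, 0)`
-/

set_option autoImplicit false

namespace Pool.Agent.Helper79.T7E

open Pool.Agent.Helper14.W5 (tr5 S5Trm)
open Pool.Agent.Helper4.T7
open Pool.Agent.Helper79.THE (liftOrd liftFn)
open Pool.Agent.Helper79.THE.Mu5

namespace LiftM5

theorem main (hm : S5Trm) (r q : ℕ)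
    (f : Fin 5 → ZMod (5 ^ r) → ZMod (5 ^ 0) → ZMod q) (hf : RelQ f) :
    ∃ F : Fin 5 → ZMod (5 ^ r) → ZMod (5 ^ 0) → ℤ, RelQ F ∧
      ∀ i x y, ((F i x y : ℤ) : ZMod q) = f i x y := by
  obtain ⟨G1, c1⟩ := liftFn (P := Pq r) (fun p => f 1 p.1 p.2)
  obtain ⟨G2, c2⟩ := liftFn (P := Pq r) (fun p => f 2 p.1 p.2)
  obtain ⟨G3, c3⟩ := liftFn (P := Pq r) (fun p => f 3 p.1 p.2)
  obtain ⟨G4, c4⟩ := liftFn (P := Pq r) (fun p => f 4 p.1 p.2)
  let k : Pq r → ℤ := fun p => (G1 p - G1 (mu 14 (-3) 7 (-7) p)) + (G2 p - G2 (mu 19 (-6) 7 (-11) p)) +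
    (G3 p - G3 (mu 24 (-11) 7 (-16) p)) + (G4 p - G4 (mu 28 (-17) 7 (-21) p))
  have hk : ∑ p, k p = 0 := by
    have s1 := sum_mu hm (r := r) 14 (-3) 7 (-7) (by norm_num) (by norm_num) (by norm_num) G1
    have s2 := sum_mu hm (r := r) 19 (-6) 7 (-11) (by norm_num) (by norm_num) (by norm_num) G2
    have s3 := sum_mu hm (r := r) 24 (-11) 7 (-16) (by norm_num) (by norm_num) (by norm_num) G3
    have s4 := sum_mu hm (r := r) 28 (-17) 7 (-21) (by norm_num) (by norm_num) (by norm_num) G4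
    simp only [k, Finset.sum_add_distrib, Finset.sum_sub_distrib]
    rw [s1, s2, s3, s4]
    ring
  obtain ⟨G0, d0, c0⟩ := solveM k hk (fun p => f 0 p.1 p.2) (fun p => by
    have h1 := hf p.1 p.2
    have h2 : f 0 p.1 p.2 - f 0 (mu 1 1 0 1 p).1 (mu 1 1 0 1 p).2 -
      (f 1 p.1 p.2 - f 1 (mu 14 (-3) 7 (-7) p).1 (mu 14 (-3) 7 (-7) p).2) -
      (f 2 p.1 p.2 - f 2 (mu 19 (-6) 7 (-11) p).1 (mu 19 (-6) 7 (-11) p).2) -
      (f 3 p.1 p.2 - f 3 (mu 24 (-11) 7 (-16) p).1 (mu 24 (-11) 7 (-16) p).2) -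
      (f 4 p.1 p.2 - f 4 (mu 28 (-17) 7 (-21) p).1 (mu 28 (-17) 7 (-21) p).2) = 0 := h1
    show f 0 p.1 p.2 - f 0 (mu 1 1 0 1 p).1 (mu 1 1 0 1 p).2 = ((k p : ℤ) : ZMod q)
    simp only [k]
    push_cast
    rw [c1, c1, c2, c2, c3, c3, c4, c4]
    linear_combination h2)
  refine ⟨![fun x y => G0 (x, y), fun x y => G1 (x, y), fun x y => G2 (x, y), fun x y => G3 (x, y),
    fun x y => G4 (x, y)], ?_, ?_⟩
  · intro x y
    have h := d0 (x, y)
    simp only [k] at h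
    show G0 (x, y) - G0 (mu 1 1 0 1 (x, y)) - (G1 (x, y) - G1 (mu 14 (-3) 7 (-7) (x, y))) -
      (G2 (x, y) - G2 (mu 19 (-6) 7 (-11) (x, y))) - (G3 (x, y) - G3 (mu 24 (-11) 7 (-16) (x, y))) -
      (G4 (x, y) - G4 (mu 28 (-17) 7 (-21) (x, y))) = 0
    linear_combination h
  · intro i x y
    fin_cases i
    · exact c0 (x, y)
    · exact c1 (x, y)
    · exact c2 (x, y)
    · exact c3 (x, y)
    · exact c4 (x, y)

end LiftM5

end Pool.Agent.Helper79.T7E
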