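import Pool.Agent.Helper79.T7E.M_Lf
import Pool.Agent.Helper79.T7E.LiftCore5

/-!
# Levels `7·5^n`: lifting the symbols `SymH` from `ZMod (5^M)` to the integers
-/

set_option autoImplicit false

namespace Pool.Agent.Helper79.T7E

open Pool.Agent.Helper14.CV (Homog EqC act)
open Pool.Agent.Helper4.T7
open Pool.Agent.Helper28.T7 (HTy SymH SymH.add SymH.neg)
open Pool.Agent.Helper14.W5 (S5Trm)
open Lf

private theorem rd_pf5 {M q q' : ℕ} (G : ℤ → ℤ → ℤ) (i : Fin 5) (x : ZMod q) (y : ZMod q') :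
    pfQ (rd M G) i x y = ((pfQ G i x y : ℤ) : ZMod M) := by
  unfold pfQ edgeQ
  rw [Int.cast_sub]
  rfl

private theorem sub_pf5 {M q q' : ℕ} (G H : ℤ → ℤ → ZMod M) (i : Fin 5) (x : ZMod q)
    (y : ZMod q') : pfQ (G + -H) i x y = pfQ G i x y - pfQ H i x y := by
  unfold pfQ edgeQ
  simp only [Pi.add_apply, Pi.neg_apply]
  ring

/-- LFT for the levels `7·5^n`. -/
theorem hLft5 (hm : S5Trm) (hRel : TRel) (hEx : TEx) (hUni : TUni) : LftH 5 := by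
  intro m M g hm2 hg
  obtain ⟨r, rfl⟩ : ∃ r, m = r + 1 := ⟨m - 1, by omega⟩
  have h5 : ¬ 7 ∣ 5 := by decide
  have hg1 : SymH 5 r 1 (fun p q => g p (((5 : ℕ) : ℤ) ^ r * q)) := sym_up h5 hg
  have h1 := hRel (ZMod (5 ^ M)) _ r 0 _ hg1
  obtain ⟨F, hF, hF3⟩ := LiftM5.main hm r (5 ^ M) _ h1
  obtain ⟨G1, hG, hG1⟩ := hEx ℤ _ r 0 F hF
  have h2 : SymH 5 r (0 + 1) (rd (5 ^ M) G1 + -(fun p q => g p (((5 : ℕ) : ℤ) ^ r * q))) :=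
    SymH.add (rd_Sym hG) (SymH.neg hg1)
  have h3 : EqC (rd (5 ^ M) G1 + -(fun p q => g p (((5 : ℕ) : ℤ) ^ r * q))) 0 := by
    refine hUni (ZMod (5 ^ M)) _ r 0 _ h2 fun i => ?_
    funext x y
    rw [sub_pf5, rd_pf5, hG1, hF3, sub_self]
    rfl
  refine ⟨fun p q => G1 (((5 : ℕ) : ℤ) ^ r * p) q, sym_down h5 hG, ?_⟩
  obtain ⟨c, hc⟩ := h3
  refine ⟨c, fun p q hpq => ?_⟩
  have h50 : ((5 : ℕ) : ℤ) ^ r ≠ 0 := by positivity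
  have hnz : ((5 : ℕ) : ℤ) ^ r * p ≠ 0 ∨ q ≠ 0 := by
    rcases hpq with h0 | h0
    · exact Or.inl (mul_ne_zero h50 h0)
    · exact Or.inr h0
  have h5 := hc (((5 : ℕ) : ℤ) ^ r * p) q hnz
  have h6 := hg.1 (((5 : ℕ) : ℤ) ^ r) p q h50 hpq
  have h7 : ((G1 (((5 : ℕ) : ℤ) ^ r * p) q : ℤ) : ZMod (5 ^ M)) +
      -(g (((5 : ℕ) : ℤ) ^ r * p) (((5 : ℕ) : ℤ) ^ r * q)) = 0 + c := h5
  rw [h6, zero_add] at h7
  change ((G1 (((5 : ℕ) : ℤ) ^ r * p) q : ℤ) : ZMod (5 ^ M)) = g p q + c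
  rw [← h7]
  abel

end Pool.Agent.Helper79.T7E
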