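import Pool.Agent.Helper79.T7E.Asm
import Pool.Agent.Helper79.T7E.M_Lft5
import Pool.Agent.Helper4.T7.Core
import Pool.Agent.Helper76.Bq.M_Bas75
import Pool.Agent.Helper83.T7C.Asm5
import Pool.Agent.Helper88.T7W.M_UIp

/-!
# Levels `7·5^n`: Theorem A for the symbols `SymH` and the prime `5`
-/

set_option autoImplicit false

namespace Pool.Agent.Helper79.T7E

open Pool.Agent.Helper4.T7 Pool.Agent.Helper83.T7C

/-- Symbols of level `7·5^m`, `f | W_7 = f`: Theorem A modulo every power of `5`. -/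
theorem taeS5 : TAHe 5 :=
  hTAHof 5 6 ddQ (by norm_num) (by norm_num) avgQ hCom evQ hksQ b3aQ b3b5Q ubQ5 lbQ5 coreVQ52
    (Pool.Agent.Helper76.Bq.hBas75 triT lifT cntT) (hLft5 trm relT exT uniT)
    Pool.Agent.Helper88.T7W.hUIp

/-- The hypothesis of the analytic part for the levels `7·5^n`. -/
theorem tahS5 : Pool.Agent.Helper28.T7.TAH 5 24 := TAHe.toTAH taeS5

end Pool.Agent.Helper79.T7E
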